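import Mathlib

set_option autoImplicit false

/-!
A stability version of Kirchberger's theorem.

If all but an `ε`-fraction of the `(d+2)`-subsets of `A ∪ B` are separated, then after deleting a
`g(ε)`-fraction of `A` and of `B` the remaining sets are separated, with `g(ε) → 0`.

Idea of the proof.  Separating functionals live in a space `V` of dimension `D = d + 1`.
The functional of smallest norm that separates a set `M` with margin one is already the one
belonging to some `D`-element subset of `M` (Helly's theorem applied to the constraints and an open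
ball).  Hence, if every functional fails on more than a `δ`-fraction of the points, then only a small
proportion of the `m`-subsets is separated, `m = m(δ, d)` being fixed; each of the other
`m`-subsets contains an unseparated `(d+2)`-subset (Kirchberger's theorem), so that a positive
fraction of the `(d+2)`-subsets is unseparated.
-/

namespace Pool.Agent.Results.MP_ff3a4f_co.AlmostKirchberger

open Finset Module Filter Topology

/-- Euclidean `d`-space. -/
abbrev E (d : ℕ) : Type := EuclideanSpace ℝ (Fin d)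

/-- Some hyperplane `{x : ⟪v, x⟫ = c}`, `v ≠ 0`, has `P` in one of its open half-spaces and `Q` in
the other one. -/
def Separated {d : ℕ} (P Q : Finset (E d)) : Prop :=
  ∃ (v : E d) (c : ℝ), v ≠ 0 ∧ (∀ p ∈ P, inner ℝ v p < c) ∧ (∀ q ∈ Q, c < inner ℝ v q)

/-- General position: any at most `d + 1` points of `X` are affinely independent. (If `X` has at
least `d + 1` points, this says that no `d + 1` points of `X` lie on a common hyperplane.) -/
def GeneralPosition {d : ℕ} (X : Finset (E d)) : Prop :=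
  ∀ S ⊆ X, S.card ≤ d + 1 → AffineIndependent ℝ (fun x : S => (x : E d))

open Classical in
/-- The good `(d+2)`-subsets of `A ∪ B`. -/
noncomputable def goodSets {d : ℕ} (A B : Finset (E d)) : Finset (Finset (E d)) :=
  ((A ∪ B).powersetCard (d + 2)).filter (fun S => Separated (A ∩ S) (B ∩ S))

/-! ### Functionals of smallest norm -/

section Abstract

variable {V : Type*} [NormedAddCommGroup V] [InnerProductSpace ℝ V] [FiniteDimensional ℝ V]
variable {ι : Type*} (z : ι → V)

/-- The functionals satisfying all the constraints in `M` with margin one. -/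
def Sat (M : Finset ι) : Set V := {w | ∀ i ∈ M, 1 ≤ inner ℝ (z i) w}

/-- A single constraint. -/
def Con (i : ι) : Set V := {w | 1 ≤ inner ℝ (z i) w}

omit [FiniteDimensional ℝ V] in
lemma con_convex (i : ι) : Convex ℝ (Con z i) := by
  intro x hx y hy a b ha hb hab
  simp only [Con, Set.mem_ofPred_eq, inner_add_right, inner_smul_right] at hx hy ⊢
  have e1 := mul_le_mul_of_nonneg_left hx ha
  have e2 := mul_le_mul_of_nonneg_left hy hb
  linarith

omit [FiniteDimensional ℝ V] in
lemma sat_convex (M : Finset ι) : Convex ℝ (Sat z M) := by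
  intro x hx y hy a b ha hb hab i hi
  exact con_convex z i (hx i hi) (hy i hi) ha hb hab

omit [FiniteDimensional ℝ V] in
lemma sat_closed (M : Finset ι) : IsClosed (Sat z M) := by
  have : Sat z M = ⋂ i ∈ M, {w : V | 1 ≤ inner ℝ (z i) w} := by
    ext w; simp [Sat]
  rw [this]
  refine isClosed_biInter fun i _ => isClosed_le continuous_const ?_
  exact continuous_const.inner continuous_id

lemma exists_min (M : Finset ι) (h : (Sat z M).Nonempty) :
    ∃ w ∈ Sat z M, ∀ w' ∈ Sat z M, ‖w‖ ≤ ‖w'‖ := by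
  obtain ⟨w, hw, hd⟩ := (sat_closed z M).exists_infDist_eq_dist h (0 : V)
  refine ⟨w, hw, fun w' hw' => ?_⟩
  have h1 := Metric.infDist_le_dist_of_mem (x := (0 : V)) hw'
  rw [hd] at h1
  simpa using h1

open Classical in
/-- The functional of smallest norm. -/
noncomputable def mn (M : Finset ι) : V :=
  if h : (Sat z M).Nonempty then Classical.choose (exists_min z M h) else 0

lemma mn_mem (M : Finset ι) (h : (Sat z M).Nonempty) : mn z M ∈ Sat z M := by
  unfold mn; rw [dif_pos h]
  exact (Classical.choose_spec (exists_min z M h)).1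

lemma mn_le (M : Finset ι) (h : (Sat z M).Nonempty) : ∀ w' ∈ Sat z M, ‖mn z M‖ ≤ ‖w'‖ := by
  unfold mn; rw [dif_pos h]
  exact (Classical.choose_spec (exists_min z M h)).2

lemma mn_unique (M : Finset ι) (w : V) (hw : w ∈ Sat z M) (hmin : ∀ w' ∈ Sat z M, ‖w‖ ≤ ‖w'‖) :
    w = mn z M := by
  have hne : (Sat z M).Nonempty := ⟨w, hw⟩
  have h1 := mn_mem z M hne
  have h2 : ‖w‖ = ‖mn z M‖ := le_antisymm (hmin _ h1) (mn_le z M hne w hw)
  set u := mn z M with hu
  have hmid : (1 / 2 : ℝ) • w + (1 / 2 : ℝ) • u ∈ Sat z M :=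
    sat_convex z M hw h1 (by norm_num) (by norm_num) (by norm_num)
  have h3 := hmin _ hmid
  have h4 : ‖(1 / 2 : ℝ) • w + (1 / 2 : ℝ) • u‖ = 1 / 2 * ‖w + u‖ := by
    rw [← smul_add, norm_smul]; norm_num
  rw [h4] at h3
  have h5 := parallelogram_law_with_norm ℝ w u
  have h6 : ‖w - u‖ * ‖w - u‖ ≤ 0 := by
    have : 2 * ‖w‖ ≤ ‖w + u‖ := by linarith
    nlinarith [norm_nonneg w, norm_nonneg (w + u)]
  have h7 : ‖w - u‖ = 0 := by nlinarith [norm_nonneg (w - u)]
  exact sub_eq_zero.mp (norm_eq_zero.mp h7)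

/-- The compression step. -/
lemma compress (M : Finset ι) (hD : finrank ℝ V ≤ M.card) (h : (Sat z M).Nonempty) :
    ∃ J ⊆ M, J.card = finrank ℝ V ∧ ∀ i ∈ M, 1 ≤ inner ℝ (z i) (mn z J) := by
  classical
  set u := mn z M with hu
  have hum : u ∈ Sat z M := mn_mem z M h
  -- the family of constraints together with the open ball
  let F : Option ι → Set V := fun o => o.elim (Metric.ball (0 : V) ‖u‖) (Con z)
  let s : Finset (Option ι) := insertNone M
  have hempty : ¬ (⋂ o ∈ s, F o).Nonempty := by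
    rintro ⟨w, hw⟩
    simp only [Set.mem_iInter] at hw
    have h0 : w ∈ Metric.ball (0 : V) ‖u‖ := hw none (by simp [s])
    have h1 : w ∈ Sat z M := fun i hi => hw (some i) (by simp [s, hi])
    rw [mem_ball_zero_iff] at h0
    exact absurd (mn_le z M h w h1) (not_le.mpr h0)
  have hconv : ∀ o ∈ s, Convex ℝ (F o) := by
    rintro (_ | i) _
    · exact convex_ball _ _
    · exact con_convex z i
  have hcard : finrank ℝ V + 1 ≤ s.card := by
    simp only [s, card_insertNone]; omega
  obtain ⟨I, hIs, hIc, hI⟩ : ∃ I ⊆ s, I.card = finrank ℝ V + 1 ∧ ¬ (⋂ o ∈ I, F o).Nonempty := by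
    by_contra hcon
    push Not at hcon
    exact hempty (Convex.helly_theorem hcard hconv fun I h1 h2 => by
      have := hcon I h1 h2
      simpa [Set.nonempty_iff_ne_empty] using this)
  have hnone : none ∈ I := by
    by_contra hn
    refine hI ⟨u, ?_⟩
    simp only [Set.mem_iInter]
    rintro (_ | i) ho
    · exact absurd ho hn
    · have : some i ∈ s := hIs ho
      simp only [s, some_mem_insertNone] at this
      exact hum i this
  let J : Finset ι := eraseNone I
  have hJM : J ⊆ M := by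
    intro i hi
    have : some i ∈ s := hIs (by simpa [J] using hi)
    simpa [s] using this
  have hJc : J.card = finrank ℝ V := by
    have : J.card = I.card - 1 := by
      simp only [J]
      rw [card_eraseNone_of_mem hnone]
    omega
  have huJ : u ∈ Sat z J := fun i hi => hum i (hJM hi)
  have hmin : ∀ w' ∈ Sat z J, ‖u‖ ≤ ‖w'‖ := by
    intro w' hw'
    by_contra hlt
    push Not at hlt
    refine hI ⟨w', ?_⟩
    simp only [Set.mem_iInter]
    rintro (_ | i) ho
    · exact mem_ball_zero_iff.mpr hlt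
    · exact hw' i (by simpa [J] using ho)
  have huJ' : u = mn z J := mn_unique z J u huJ hmin
  exact ⟨J, hJM, hJc, fun i hi => by rw [← huJ']; exact hum i hi⟩

/-- Kirchberger's theorem in terms of functionals. -/
lemma kirch (M : Finset ι) (hD : finrank ℝ V + 1 ≤ M.card) (h : ¬ (Sat z M).Nonempty) :
    ∃ I ⊆ M, I.card = finrank ℝ V + 1 ∧ ¬ (Sat z I).Nonempty := by
  by_contra hcon
  push Not at hcon
  have heq : ∀ I : Finset ι, (⋂ i ∈ I, Con z i) = Sat z I := by
    intro I; ext w; simp [Con, Sat]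
  have := Convex.helly_theorem (F := Con z) hD (fun i _ => con_convex z i) (fun I h1 h2 => by
    rw [heq]
    have := hcon I h1 h2
    simpa [Set.nonempty_iff_ne_empty] using this)
  rw [heq] at this
  exact h this

end Abstract

/-! ### Counting -/

section Counting

variable {ι : Type*} [DecidableEq ι]

lemma count_good (X : Finset ι) (D m K : ℕ) (good : Finset ι → Prop) [DecidablePred good]
    (G : Finset ι → Finset ι) (hG : ∀ J, (G J).card ≤ K)
    (hcomp : ∀ M ⊆ X, M.card = m → good M → ∃ J ⊆ M, J.card = D ∧ M ⊆ G J) :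
    ((X.powersetCard m).filter good).card ≤ X.card.choose D * (K - D).choose (m - D) := by
  classical
  have hsub : (X.powersetCard m).filter good ⊆ (X.powersetCard D).biUnion (fun J =>
      if J ⊆ G J then ((G J \ J).powersetCard (m - D)).image (fun R => J ∪ R) else ∅) := by
    intro M hM
    rw [mem_filter, mem_powersetCard] at hM
    obtain ⟨⟨hMX, hMc⟩, hMg⟩ := hM
    obtain ⟨J, hJM, hJc, hMG⟩ := hcomp M hMX hMc hMg
    rw [mem_biUnion]
    refine ⟨J, mem_powersetCard.mpr ⟨hJM.trans hMX, hJc⟩, ?_⟩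
    rw [if_pos (hJM.trans hMG), mem_image]
    refine ⟨M \ J, mem_powersetCard.mpr ⟨sdiff_subset_sdiff hMG (le_refl J), ?_⟩,
      union_sdiff_of_subset hJM⟩
    rw [card_sdiff_of_subset hJM, hMc, hJc]
  refine (card_le_card hsub).trans (card_biUnion_le.trans ?_)
  have hterm : ∀ J ∈ X.powersetCard D, (if J ⊆ G J then
      ((G J \ J).powersetCard (m - D)).image (fun R => J ∪ R) else ∅).card ≤
        (K - D).choose (m - D) := by
    intro J hJ
    split_ifs with h
    · refine card_image_le.trans ?_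
      rw [card_powersetCard, card_sdiff_of_subset h, (mem_powersetCard.mp hJ).2]
      exact Nat.choose_le_choose _ (Nat.sub_le_sub_right (hG J) D)
    · simp
  refine (sum_le_sum hterm).trans ?_
  rw [sum_const, card_powersetCard, smul_eq_mul]

lemma count_bad (X : Finset ι) (D m : ℕ) (bad : Finset ι → Prop) [DecidablePred bad]
    (hkirch : ∀ M ⊆ X, M.card = m → bad M → ∃ I ⊆ M, I.card = D ∧ bad I) :
    ((X.powersetCard m).filter bad).card ≤
      ((X.powersetCard D).filter bad).card * (X.card - D).choose (m - D) := by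
  classical
  have hsub : (X.powersetCard m).filter bad ⊆ ((X.powersetCard D).filter bad).biUnion (fun J =>
      ((X \ J).powersetCard (m - D)).image (fun R => J ∪ R)) := by
    intro M hM
    rw [mem_filter, mem_powersetCard] at hM
    obtain ⟨⟨hMX, hMc⟩, hMb⟩ := hM
    obtain ⟨J, hJM, hJc, hJb⟩ := hkirch M hMX hMc hMb
    rw [mem_biUnion]
    refine ⟨J, mem_filter.mpr ⟨mem_powersetCard.mpr ⟨hJM.trans hMX, hJc⟩, hJb⟩, ?_⟩
    rw [mem_image]
    refine ⟨M \ J, mem_powersetCard.mpr ⟨sdiff_subset_sdiff hMX (le_refl J), ?_⟩,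
      union_sdiff_of_subset hJM⟩
    rw [card_sdiff_of_subset hJM, hMc, hJc]
  refine (card_le_card hsub).trans (card_biUnion_le.trans ?_)
  have hterm : ∀ J ∈ (X.powersetCard D).filter bad,
      (((X \ J).powersetCard (m - D)).image (fun R => J ∪ R)).card ≤
        (X.card - D).choose (m - D) := by
    intro J hJ
    have hJ' := mem_powersetCard.mp (mem_filter.mp hJ).1
    refine card_image_le.trans ?_
    rw [card_powersetCard, card_sdiff_of_subset hJ'.1, hJ'.2]
  refine (sum_le_sum hterm).trans ?_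
  rw [sum_const, smul_eq_mul]

end Counting

lemma descFactorial_le (t : ℝ) (ht0 : 0 ≤ t) (ht1 : t ≤ 1) (a b : ℕ) (hab : (a : ℝ) ≤ t * b)
    (r : ℕ) : (a.descFactorial r : ℝ) ≤ t ^ r * (b.descFactorial r : ℝ) := by
  induction r with
  | zero => simp
  | succ r ih =>
    rw [Nat.descFactorial_succ, Nat.descFactorial_succ]
    by_cases har : a ≤ r
    · rw [Nat.sub_eq_zero_of_le har]
      simp only [zero_mul, Nat.cast_zero]
      positivity
    · push Not at har
      have hble : (a : ℝ) ≤ b := hab.trans (by nlinarith [(Nat.cast_nonneg b : (0 : ℝ) ≤ b)])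
      have hble' : a ≤ b := by exact_mod_cast hble
      have h1 : ((a - r : ℕ) : ℝ) = a - r := by rw [Nat.cast_sub har.le]
      have h2 : ((b - r : ℕ) : ℝ) = b - r := by rw [Nat.cast_sub (har.le.trans hble')]
      have h3 : (a : ℝ) - r ≤ t * (b - r) := by
        nlinarith [(Nat.cast_nonneg r : (0 : ℝ) ≤ r)]
      have h4 : 0 ≤ (a : ℝ) - r := by
        have : (r : ℝ) ≤ a := by exact_mod_cast har.le
        linarith
      push_cast
      rw [h1, h2]
      calc ((a : ℝ) - r) * (a.descFactorial r : ℝ)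
          ≤ (t * (b - r)) * (t ^ r * (b.descFactorial r : ℝ)) :=
            mul_le_mul h3 ih (by positivity) (h4.trans h3)
        _ = t ^ (r + 1) * ((b - r) * (b.descFactorial r : ℝ)) := by ring

lemma choose_le (t : ℝ) (ht0 : 0 ≤ t) (ht1 : t ≤ 1) (a b : ℕ) (hab : (a : ℝ) ≤ t * b)
    (r : ℕ) : (a.choose r : ℝ) ≤ t ^ r * (b.choose r : ℝ) := by
  have h := descFactorial_le t ht0 ht1 a b hab r
  rw [Nat.descFactorial_eq_factorial_mul_choose, Nat.descFactorial_eq_factorial_mul_choose] at h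
  push_cast at h
  have hpos : (0 : ℝ) < (r.factorial : ℝ) := by exact_mod_cast r.factorial_pos
  have h' : (r.factorial : ℝ) * (a.choose r : ℝ) ≤ (r.factorial : ℝ) * (t ^ r * (b.choose r : ℝ)) := by
    calc _ ≤ _ := h
      _ = _ := by ring
  exact le_of_mul_le_mul_left h' hpos

lemma exists_m (D : ℕ) (δ : ℝ) (hδ : 0 < δ) (hδ1 : δ < 1) :
    ∃ m : ℕ, D + 1 ≤ m ∧ (m.choose D : ℝ) * (1 - δ) ^ (m - D) ≤ 1 / 2 := by
  have hr0 : 0 < 1 - δ := by linarith
  have h1 := tendsto_pow_const_mul_const_pow_of_lt_one D hr0.le (by linarith : 1 - δ < 1)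
  have hpos : 0 < (1 - δ) ^ D / 2 := by positivity
  have h2 := (h1.eventually (gt_mem_nhds hpos)).and (eventually_ge_atTop (D + 1))
  obtain ⟨m, hm, hmD⟩ := h2.exists
  refine ⟨m, hmD, ?_⟩
  have h3 : (1 - δ) ^ m = (1 - δ) ^ (m - D) * (1 - δ) ^ D := by
    rw [← pow_add]; congr 1; omega
  have h4 : (m.choose D : ℝ) ≤ (m : ℝ) ^ D := by
    exact_mod_cast Nat.choose_le_pow m D
  have h5 : (m.choose D : ℝ) * (1 - δ) ^ (m - D) * (1 - δ) ^ D < (1 - δ) ^ D / 2 := by
    calc (m.choose D : ℝ) * (1 - δ) ^ (m - D) * (1 - δ) ^ D = (m.choose D : ℝ) * (1 - δ) ^ m := by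
          rw [h3]; ring
      _ ≤ (m : ℝ) ^ D * (1 - δ) ^ m := by gcongr
      _ < _ := hm
  have h6 : (0 : ℝ) < (1 - δ) ^ D := by positivity
  have h7 : (m.choose D : ℝ) * (1 - δ) ^ (m - D) * (1 - δ) ^ D < 1 / 2 * (1 - δ) ^ D := by
    linarith
  exact (lt_of_mul_lt_mul_right h7 h6.le).le

/-! ### The abstract stability theorem -/

theorem stability (D : ℕ) (δ : ℝ) (hδ : 0 < δ) (hδ1 : δ < 1) :
    ∃ ε : ℝ, 0 < ε ∧ ∀ (V : Type) [NormedAddCommGroup V] [InnerProductSpace ℝ V]
      [FiniteDimensional ℝ V] (ι : Type) [DecidableEq ι] (z : ι → V) (X : Finset ι)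
      (bad : Finset ι → Prop) [DecidablePred bad],
      finrank ℝ V = D → D + 1 ≤ X.card →
      (∀ M : Finset ι, M ⊆ X → (bad M ↔ ¬ (Sat z M).Nonempty)) →
      ((((X.powersetCard (D + 1)).filter bad).card : ℕ) : ℝ) ≤ ε * (X.card.choose (D + 1) : ℝ) →
      ∃ w : V, (((X.filter (fun i => ¬ (1 ≤ inner ℝ (z i) w))).card : ℕ) : ℝ) ≤ δ * X.card := by
  obtain ⟨m, hmD, hm⟩ := exists_m D δ hδ hδ1
  have hcpos : (0 : ℝ) < (m.choose (D + 1) : ℝ) := by
    exact_mod_cast Nat.choose_pos hmD
  refine ⟨1 / (4 * (m.choose (D + 1) : ℝ)), by positivity, ?_⟩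
  intro V _ _ _ ι _ z X bad _ hfin hcard hbad hfew
  classical
  by_contra hcon0
  have hcon : ∀ w : V, δ * X.card <
      (((X.filter (fun i => ¬ (1 ≤ inner ℝ (z i) w))).card : ℕ) : ℝ) :=
    fun w => lt_of_not_ge fun h => hcon0 ⟨w, h⟩
  clear hcon0
  set n := X.card with hn
  have hnpos : (0 : ℝ) < (n.choose (D + 1) : ℝ) := by exact_mod_cast Nat.choose_pos hcard
  have hn0 : (0 : ℝ) ≤ n := Nat.cast_nonneg n
  by_cases hnm : n < m
  · -- few points
    have h1 : (n.choose (D + 1) : ℝ) ≤ (m.choose (D + 1) : ℝ) := by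
      exact_mod_cast Nat.choose_le_choose (D + 1) hnm.le
    have h2 : ((((X.powersetCard (D + 1)).filter bad).card : ℕ) : ℝ) < 1 := by
      refine hfew.trans_lt ?_
      rw [div_mul_eq_mul_div, one_mul, div_lt_one (by positivity)]
      linarith
    have h3 : ((X.powersetCard (D + 1)).filter bad).card = 0 := by
      have : ((X.powersetCard (D + 1)).filter bad).card < 1 := by exact_mod_cast h2
      omega
    rw [card_eq_zero] at h3
    have hX : (Sat z X).Nonempty := by
      by_contra hX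
      obtain ⟨I, hIX, hIc, hIb⟩ := kirch z X (by rw [hfin]; exact hcard) hX
      have : I ∈ (X.powersetCard (D + 1)).filter bad := by
        rw [mem_filter, mem_powersetCard]
        exact ⟨⟨hIX, by rw [hIc, hfin]⟩, (hbad I hIX).mpr hIb⟩
      rw [h3] at this
      simp at this
    obtain ⟨w, hw⟩ := hX
    have h4 := hcon w
    have h5 : X.filter (fun i => ¬ (1 ≤ inner ℝ (z i) w)) = ∅ := by
      rw [filter_eq_empty_iff]
      intro i hi
      exact not_not.mpr (hw i hi)
    rw [h5] at h4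
    simp only [card_empty, Nat.cast_zero] at h4
    nlinarith
  · push Not at hnm
    -- the general case
    set K : ℕ := ⌊(1 - δ) * n⌋₊ with hK
    have hKle : (K : ℝ) ≤ (1 - δ) * n := Nat.floor_le (by nlinarith)
    let G : Finset ι → Finset ι := fun J => X.filter (fun i => 1 ≤ inner ℝ (z i) (mn z J))
    have hG : ∀ J, (G J).card ≤ K := by
      intro J
      have h1 := hcon (mn z J)
      have h2 : ((X.filter (fun i => 1 ≤ inner ℝ (z i) (mn z J))).card : ℝ) +
          ((X.filter (fun i => ¬ (1 ≤ inner ℝ (z i) (mn z J)))).card : ℝ) = n := by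
        rw [hn]
        exact_mod_cast card_filter_add_card_filter_not (s := X)
          (fun i => 1 ≤ inner ℝ (z i) (mn z J))
      refine Nat.le_floor ?_
      simp only [G]
      linarith
    have hgood := count_good X D m K (fun M => ¬ bad M) G hG (by
      intro M hMX hMc hMg
      have hne : (Sat z M).Nonempty := by
        by_contra hne
        exact hMg ((hbad M hMX).mpr hne)
      obtain ⟨J, hJM, hJc, hJ⟩ := compress z M (by rw [hfin, hMc]; omega) hne
      exact ⟨J, hJM, by rw [hJc, hfin], fun i hi => mem_filter.mpr ⟨hMX hi, hJ i hi⟩⟩)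
    have hbadc := count_bad X (D + 1) m bad (by
      intro M hMX hMc hMb
      obtain ⟨I, hIM, hIc, hIb⟩ := kirch z M (by rw [hfin, hMc]; exact hmD)
        ((hbad M hMX).mp hMb)
      exact ⟨I, hIM, by rw [hIc, hfin], (hbad I (hIM.trans hMX)).mpr hIb⟩)
    have hsplit : ((X.powersetCard m).filter bad).card +
        ((X.powersetCard m).filter (fun M => ¬ bad M)).card = n.choose m := by
      rw [card_filter_add_card_filter_not, card_powersetCard]
    rw [← hn] at hgood hbadc
    have hid1 : n.choose m * m.choose D = n.choose D * (n - D).choose (m - D) :=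
      Nat.choose_mul (by omega : D ≤ m)
    have hid2 : n.choose m * m.choose (D + 1) = n.choose (D + 1) * (n - (D + 1)).choose (m - (D + 1)) :=
      Nat.choose_mul (by omega : D + 1 ≤ m)
    -- real versions
    have hch : ((K - D).choose (m - D) : ℝ) ≤ (1 - δ) ^ (m - D) * ((n - D).choose (m - D) : ℝ) := by
      refine choose_le (1 - δ) (by linarith) (by linarith) (K - D) (n - D) ?_ (m - D)
      rw [Nat.cast_sub (by omega : D ≤ n)]
      by_cases hKD : D ≤ K
      · rw [Nat.cast_sub hKD]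
        nlinarith [(Nat.cast_nonneg D : (0 : ℝ) ≤ D)]
      · rw [Nat.sub_eq_zero_of_le (by omega)]
        have : (D : ℝ) ≤ n := by exact_mod_cast (by omega : D ≤ n)
        simp only [Nat.cast_zero]
        exact mul_nonneg (by linarith) (by linarith)
    have hgood' : ((((X.powersetCard m).filter (fun M => ¬ bad M)).card : ℕ) : ℝ) ≤
        1 / 2 * (n.choose m : ℝ) := by
      calc ((((X.powersetCard m).filter (fun M => ¬ bad M)).card : ℕ) : ℝ)
          ≤ ((n.choose D * (K - D).choose (m - D) : ℕ) : ℝ) := by exact_mod_cast hgood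
        _ = (n.choose D : ℝ) * ((K - D).choose (m - D) : ℝ) := by push_cast; ring
        _ ≤ (n.choose D : ℝ) * ((1 - δ) ^ (m - D) * ((n - D).choose (m - D) : ℝ)) := by gcongr
        _ = (1 - δ) ^ (m - D) * ((n.choose D * (n - D).choose (m - D) : ℕ) : ℝ) := by
            push_cast; ring
        _ = (1 - δ) ^ (m - D) * ((n.choose m * m.choose D : ℕ) : ℝ) := by rw [hid1]
        _ = ((m.choose D : ℝ) * (1 - δ) ^ (m - D)) * (n.choose m : ℝ) := by push_cast; ring
        _ ≤ 1 / 2 * (n.choose m : ℝ) := by gcongr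
    have hbad' : 1 / 2 * (n.choose m : ℝ) ≤
        ((((X.powersetCard (D + 1)).filter bad).card : ℕ) : ℝ) *
          ((n - (D + 1)).choose (m - (D + 1)) : ℝ) := by
      have h1 : ((((X.powersetCard m).filter bad).card : ℕ) : ℝ) +
        ((((X.powersetCard m).filter (fun M => ¬ bad M)).card : ℕ) : ℝ) = (n.choose m : ℝ) := by
        exact_mod_cast hsplit
      have h2 : ((((X.powersetCard m).filter bad).card : ℕ) : ℝ) ≤
        ((((X.powersetCard (D + 1)).filter bad).card : ℕ) : ℝ) *
          ((n - (D + 1)).choose (m - (D + 1)) : ℝ) := by exact_mod_cast hbadc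
      linarith
    have hnm' : (0 : ℝ) < (n.choose m : ℝ) := by exact_mod_cast Nat.choose_pos hnm
    have hchain : 1 / 2 * (n.choose m : ℝ) ≤
        1 / (4 * (m.choose (D + 1) : ℝ)) * ((n.choose m : ℝ) * (m.choose (D + 1) : ℝ)) := by
      calc 1 / 2 * (n.choose m : ℝ) ≤ _ := hbad'
        _ ≤ (1 / (4 * (m.choose (D + 1) : ℝ)) * (n.choose (D + 1) : ℝ)) *
            ((n - (D + 1)).choose (m - (D + 1)) : ℝ) := by gcongr
        _ = 1 / (4 * (m.choose (D + 1) : ℝ)) *
            ((n.choose (D + 1) * (n - (D + 1)).choose (m - (D + 1)) : ℕ) : ℝ) := by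
            push_cast; ring
        _ = 1 / (4 * (m.choose (D + 1) : ℝ)) * ((n.choose m * m.choose (D + 1) : ℕ) : ℝ) := by
            rw [hid2]
        _ = _ := by push_cast; ring
    have hfinal : 1 / (4 * (m.choose (D + 1) : ℝ)) * ((n.choose m : ℝ) * (m.choose (D + 1) : ℝ)) =
        1 / 4 * (n.choose m : ℝ) := by
      field_simp
    rw [hfinal] at hchain
    linarith

/-! ### From points to functionals -/

/-- Pairs (normal vector, offset). -/
abbrev W (d : ℕ) : Type := WithLp 2 (E d × ℝ)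

/-- The pair with the given components. -/
def mk {d : ℕ} (v : E d) (c : ℝ) : W d := WithLp.toLp 2 (v, c)

lemma inner_mk {d : ℕ} (v v' : E d) (c c' : ℝ) :
    inner ℝ (mk v c) (mk v' c') = inner ℝ v v' + c * c' := by
  simp [mk, WithLp.prod_inner_apply, mul_comm]

lemma finrank_W (d : ℕ) : finrank ℝ (W d) = d + 1 := by
  rw [(WithLp.linearEquiv 2 ℝ (E d × ℝ)).finrank_eq]
  simp

open Classical in
/-- The constraint vector of a point. -/
noncomputable def zz {d : ℕ} (A : Finset (E d)) (x : E d) : W d :=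
  if x ∈ A then mk (-x) 1 else mk x (-1)

lemma exists_mk {d : ℕ} (w : W d) : ∃ v c, w = mk v c := ⟨w.fst, w.snd, rfl⟩

lemma sat_separated {d : ℕ} (hd : 1 ≤ d) (A P Q : Finset (E d)) (hP : P ⊆ A)
    (hQ : Disjoint Q A) (w : W d) (hwP : ∀ p ∈ P, 1 ≤ inner ℝ (zz A p) w)
    (hwQ : ∀ q ∈ Q, 1 ≤ inner ℝ (zz A q) w) : Separated P Q := by
  classical
  obtain ⟨v, c, rfl⟩ := exists_mk w
  have h1 : ∀ p ∈ P, inner ℝ v p < c := by
    intro p hp
    have := hwP p hp
    rw [zz, if_pos (hP hp), inner_mk, inner_neg_left, real_inner_comm] at this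
    linarith
  have h2 : ∀ q ∈ Q, c < inner ℝ v q := by
    intro q hq
    have := hwQ q hq
    rw [zz, if_neg (Finset.disjoint_left.mp hQ hq), inner_mk, real_inner_comm] at this
    linarith
  by_cases hv : v = 0
  · -- one of the sets is empty
    have hne : ∃ u : E d, u ≠ 0 := by
      have : Nonempty (Fin d) := ⟨⟨0, hd⟩⟩
      exact exists_ne 0
    obtain ⟨u, hu⟩ := hne
    rcases P.eq_empty_or_nonempty with hPe | ⟨p, hp⟩
    · obtain ⟨c', hc'⟩ : ∃ c' : ℝ, ∀ q ∈ Q, c' < inner ℝ u q := by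
        obtain ⟨b, hb⟩ := (Q.image (fun q => inner ℝ u q)).bddBelow
        refine ⟨b - 1, fun q hq => ?_⟩
        have := hb (Finset.mem_coe.mpr (Finset.mem_image_of_mem _ hq))
        linarith
      exact ⟨u, c', hu, by simp [hPe], hc'⟩
    · rcases Q.eq_empty_or_nonempty with hQe | ⟨q, hq⟩
      · obtain ⟨c', hc'⟩ : ∃ c' : ℝ, ∀ p ∈ P, inner ℝ u p < c' := by
          obtain ⟨b, hb⟩ := (P.image (fun p => inner ℝ u p)).bddAbove
          refine ⟨b + 1, fun p hp => ?_⟩
          have := hb (Finset.mem_coe.mpr (Finset.mem_image_of_mem _ hp))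
          linarith
        exact ⟨u, c', hu, hc', by simp [hQe]⟩
      · have e1 := h1 p hp
        have e2 := h2 q hq
        rw [hv, inner_zero_left] at e1 e2
        linarith
  · exact ⟨v, c, hv, h1, h2⟩

lemma separated_sat {d : ℕ} (A S P Q : Finset (E d)) (hP : ∀ x ∈ S, x ∈ A → x ∈ P)
    (hQ : ∀ x ∈ S, x ∉ A → x ∈ Q) (h : Separated P Q) : (Sat (zz A) S).Nonempty := by
  classical
  obtain ⟨v, c, -, h1, h2⟩ := h
  -- a positive lower bound for the margins
  have hpos : ∀ x ∈ S, 0 < inner ℝ (zz A x) (mk v c) := by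
    intro x hx
    by_cases hxA : x ∈ A
    · rw [zz, if_pos hxA, inner_mk, inner_neg_left, real_inner_comm]
      have := h1 x (hP x hx hxA)
      linarith
    · rw [zz, if_neg hxA, inner_mk, real_inner_comm]
      have := h2 x (hQ x hx hxA)
      linarith
  rcases S.eq_empty_or_nonempty with rfl | hS
  · exact ⟨0, by simp [Sat]⟩
  · obtain ⟨y, hy, hmin⟩ := S.exists_min_image (fun x => inner ℝ (zz A x) (mk v c)) hS
    have hy0 := hpos y hy
    refine ⟨(inner ℝ (zz A y) (mk v c))⁻¹ • mk v c, fun x hx => ?_⟩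
    rw [inner_smul_right]
    have := hmin x hx
    rw [inv_mul_eq_div, le_div_iff₀ hy0]
    linarith

/-- In general position, few points are always separated. -/
lemma separated_of_generalPosition {d : ℕ} (hd : 1 ≤ d) (A B : Finset (E d))
    (hAB : Disjoint A B) (hgp : GeneralPosition (A ∪ B)) (hcard : (A ∪ B).card ≤ d + 1) :
    Separated A B := by
  classical
  have hai := hgp (A ∪ B) (le_refl _) hcard
  have hint : convexHull ℝ (A : Set (E d)) ∩ convexHull ℝ (B : Set (E d)) = ∅ := by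
    have h := AffineIndependent.convexHull_inter (R := ℝ) (s := A ∪ B) hai
      (t₁ := A) (t₂ := B) Finset.subset_union_left Finset.subset_union_right
    rw [← h, ← Finset.coe_inter, Finset.disjoint_iff_inter_eq_empty.mp hAB]
    simp
  rcases A.eq_empty_or_nonempty with rfl | hA
  · refine sat_separated hd ∅ ∅ B (le_refl _) (by simp) (mk 0 (-1)) (by simp) ?_
    intro q _
    rw [zz, if_neg (by simp), inner_mk]
    simp
  rcases B.eq_empty_or_nonempty with rfl | hB
  · refine sat_separated hd A A ∅ (le_refl _) (by simp) (mk 0 1) ?_ (by simp)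
    intro q hq
    rw [zz, if_pos hq, inner_mk]
    simp
  obtain ⟨f, u, v, hu, huv, hv⟩ := geometric_hahn_banach_compact_closed
    (convex_convexHull ℝ (A : Set (E d))) (A.finite_toSet.isCompact_convexHull ℝ)
    (convex_convexHull ℝ (B : Set (E d))) (B.finite_toSet.isCompact_convexHull ℝ).isClosed
    (Set.disjoint_iff_inter_eq_empty.mpr hint)
  set w := (InnerProductSpace.toDual ℝ (E d)).symm f with hw
  have hf : ∀ x, inner ℝ w x = f x := fun x => InnerProductSpace.toDual_symm_apply
  refine ⟨w, (u + v) / 2, ?_, ?_, ?_⟩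
  · intro h0
    obtain ⟨a, ha⟩ := hA
    obtain ⟨b, hb⟩ := hB
    have e1 := hu a (subset_convexHull ℝ _ ha)
    have e2 := hv b (subset_convexHull ℝ _ hb)
    rw [← hf, h0, inner_zero_left] at e1 e2
    linarith
  · intro p hp
    have := hu p (subset_convexHull ℝ _ hp)
    rw [hf]; linarith
  · intro q hq
    have := hv q (subset_convexHull ℝ _ hq)
    rw [hf]; linarith

/-- The `ε`-`δ` form. -/
theorem eps_delta (d : ℕ) (hd : 1 ≤ d) (δ : ℝ) (hδ : 0 < δ) :
    ∃ ε : ℝ, 0 < ε ∧ ∀ (N : ℕ) (A B : Finset (E d)), Disjoint A B → A.card = N → B.card = N →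
      (d + 2 ≤ 2 * N ∨ GeneralPosition (A ∪ B)) →
      (1 - ε) * ((2 * N).choose (d + 2) : ℝ) ≤ ((goodSets A B).card : ℝ) →
      ∃ A' ⊆ A, ∃ B' ⊆ B, Separated A' B' ∧
        (1 - δ) * (N : ℝ) ≤ (A'.card : ℝ) ∧ (1 - δ) * (N : ℝ) ≤ (B'.card : ℝ) := by
  classical
  wlog hδ1 : δ < 1 generalizing δ
  · obtain ⟨ε, hε, h⟩ := this (1 / 2) (by norm_num) (by norm_num)
    refine ⟨ε, hε, ?_⟩
    intro N A B h1 h2 h3 h4 h5
    obtain ⟨A', hA', B', hB', hs, ha, hb⟩ := h N A B h1 h2 h3 h4 h5
    have hN : (0 : ℝ) ≤ N := Nat.cast_nonneg N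
    exact ⟨A', hA', B', hB', hs, by nlinarith, by nlinarith⟩
  obtain ⟨ε, hε, hst⟩ := stability (d + 1) (δ / 2) (by linarith) (by linarith)
  refine ⟨ε, hε, ?_⟩
  intro N A B hdis hA hB hgp hgood
  have hN : (0 : ℝ) ≤ N := Nat.cast_nonneg N
  have hcard : (A ∪ B).card = 2 * N := by
    rw [card_union_of_disjoint hdis, hA, hB]; ring
  by_cases hbig : d + 2 ≤ 2 * N
  swap
  · have hgp' : GeneralPosition (A ∪ B) := hgp.resolve_left hbig
    refine ⟨A, le_refl _, B, le_refl _,
      separated_of_generalPosition hd A B hdis hgp' (by omega), ?_, ?_⟩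
    · rw [hA]; nlinarith
    · rw [hB]; nlinarith
  -- the main case
  have hbadiff : ∀ M : Finset (E d), M ⊆ A ∪ B →
      ((¬ Separated (A ∩ M) (B ∩ M)) ↔ ¬ (Sat (zz A) M).Nonempty) := by
    intro M hM
    rw [not_iff_not]
    constructor
    · intro h
      refine separated_sat A M (A ∩ M) (B ∩ M) (fun x hx hxA => mem_inter.mpr ⟨hxA, hx⟩) ?_ h
      intro x hx hxA
      have := hM hx
      rw [mem_union] at this
      exact mem_inter.mpr ⟨this.resolve_left hxA, hx⟩
    · rintro ⟨w, hw⟩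
      refine sat_separated hd A (A ∩ M) (B ∩ M) inter_subset_left ?_ w ?_ ?_
      · exact hdis.symm.mono_left inter_subset_left
      · intro p hp; exact hw p (mem_inter.mp hp).2
      · intro p hp; exact hw p (mem_inter.mp hp).2
  have hfew : (((((A ∪ B).powersetCard (d + 1 + 1)).filter
      (fun M => ¬ Separated (A ∩ M) (B ∩ M))).card : ℕ) : ℝ) ≤
        ε * ((A ∪ B).card.choose (d + 1 + 1) : ℝ) := by
    have h1 : (((A ∪ B).powersetCard (d + 2)).filter
        (fun M => Separated (A ∩ M) (B ∩ M))).card + (((A ∪ B).powersetCard (d + 2)).filter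
        (fun M => ¬ Separated (A ∩ M) (B ∩ M))).card = (2 * N).choose (d + 2) := by
      rw [card_filter_add_card_filter_not, card_powersetCard, hcard]
    have h2 : ((goodSets A B).card : ℝ) + (((((A ∪ B).powersetCard (d + 2)).filter
        (fun M => ¬ Separated (A ∩ M) (B ∩ M))).card : ℕ) : ℝ) = ((2 * N).choose (d + 2) : ℝ) := by
      rw [← h1]
      push_cast
      congr 2
    have h3 : d + 1 + 1 = d + 2 := rfl
    rw [h3, hcard]
    linarith
  obtain ⟨w, hw⟩ := hst (W d) (E d) (zz A) (A ∪ B) (fun M => ¬ Separated (A ∩ M) (B ∩ M))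
    (finrank_W d) (by rw [hcard]; omega) hbadiff hfew
  set bads := (A ∪ B).filter (fun x => ¬ (1 ≤ inner ℝ (zz A x) w)) with hbads
  have hbc : (bads.card : ℝ) ≤ δ * N := by
    refine hw.trans (le_of_eq ?_)
    rw [hcard]; push_cast; ring
  refine ⟨A.filter (fun x => 1 ≤ inner ℝ (zz A x) w), filter_subset _ _,
    B.filter (fun x => 1 ≤ inner ℝ (zz A x) w), filter_subset _ _, ?_, ?_, ?_⟩
  · refine sat_separated hd A _ _ (filter_subset _ _) ?_ w ?_ ?_
    · exact hdis.symm.mono_left (filter_subset _ _)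
    · intro p hp; exact (mem_filter.mp hp).2
    · intro p hp; exact (mem_filter.mp hp).2
  · have h1 := card_filter_add_card_filter_not (s := A) (fun x => 1 ≤ inner ℝ (zz A x) w)
    have h2 : (A.filter (fun x => ¬ (1 ≤ inner ℝ (zz A x) w))).card ≤ bads.card :=
      card_le_card (filter_subset_filter _ subset_union_left)
    have h3 : (((A.filter (fun x => ¬ (1 ≤ inner ℝ (zz A x) w))).card : ℕ) : ℝ) ≤ bads.card := by
      exact_mod_cast h2
    have h4 : (((A.filter (fun x => 1 ≤ inner ℝ (zz A x) w)).card : ℕ) : ℝ) +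
      (((A.filter (fun x => ¬ (1 ≤ inner ℝ (zz A x) w))).card : ℕ) : ℝ) = N := by
      rw [← hA]; exact_mod_cast h1
    linarith
  · have h1 := card_filter_add_card_filter_not (s := B) (fun x => 1 ≤ inner ℝ (zz A x) w)
    have h2 : (B.filter (fun x => ¬ (1 ≤ inner ℝ (zz A x) w))).card ≤ bads.card :=
      card_le_card (filter_subset_filter _ subset_union_right)
    have h3 : (((B.filter (fun x => ¬ (1 ≤ inner ℝ (zz A x) w))).card : ℕ) : ℝ) ≤ bads.card := by
      exact_mod_cast h2
    have h4 : (((B.filter (fun x => 1 ≤ inner ℝ (zz A x) w)).card : ℕ) : ℝ) +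
      (((B.filter (fun x => ¬ (1 ≤ inner ℝ (zz A x) w))).card : ℕ) : ℝ) = N := by
      rw [← hB]; exact_mod_cast h1
    linarith

/-- Stability of Kirchberger's theorem (the positive answer to the question). -/
theorem result (d : ℕ) (hd : 1 ≤ d) :
    ∃ g : ℝ → ℝ, Tendsto g (𝓝[>] 0) (𝓝 0) ∧
      ∀ ε : ℝ, 0 < ε → ∀ (N : ℕ) (A B : Finset (E d)),
        Disjoint A B → A.card = N → B.card = N →
        (d + 2 ≤ 2 * N ∨ GeneralPosition (A ∪ B)) →
        (1 - ε) * ((2 * N).choose (d + 2) : ℝ) ≤ ((goodSets A B).card : ℝ) →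
        ∃ A' ⊆ A, ∃ B' ⊆ B, Separated A' B' ∧
          (1 - g ε) * (N : ℝ) ≤ (A'.card : ℝ) ∧ (1 - g ε) * (N : ℝ) ≤ (B'.card : ℝ) := by
  classical
  let Φ : ℝ → ℝ → Prop := fun ε δ => ∀ (N : ℕ) (A B : Finset (E d)),
        Disjoint A B → A.card = N → B.card = N →
        (d + 2 ≤ 2 * N ∨ GeneralPosition (A ∪ B)) →
        (1 - ε) * ((2 * N).choose (d + 2) : ℝ) ≤ ((goodSets A B).card : ℝ) →
        ∃ A' ⊆ A, ∃ B' ⊆ B, Separated A' B' ∧
          (1 - δ) * (N : ℝ) ≤ (A'.card : ℝ) ∧ (1 - δ) * (N : ℝ) ≤ (B'.card : ℝ)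
  have hmono : ∀ ε ε' δ δ', ε' ≤ ε → δ ≤ δ' → Φ ε δ → Φ ε' δ' := by
    intro ε ε' δ δ' h1 h2 h N A B hdis hA hB hgp hgood
    have hC : (0 : ℝ) ≤ ((2 * N).choose (d + 2) : ℝ) := Nat.cast_nonneg _
    have hN : (0 : ℝ) ≤ N := Nat.cast_nonneg N
    obtain ⟨A', hA', B', hB', hs, ha, hb⟩ := h N A B hdis hA hB hgp (by nlinarith)
    exact ⟨A', hA', B', hB', hs, by nlinarith, by nlinarith⟩
  have hone : ∀ ε, Φ ε 1 := by
    intro ε N A B hdis hA hB hgp hgood
    refine ⟨∅, by simp, ∅, by simp, ?_, by simp, by simp⟩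
    exact sat_separated hd ∅ ∅ ∅ (le_refl _) (by simp) 0 (by simp) (by simp)
  let S : ℝ → Set ℝ := fun ε => {δ | 0 ≤ δ ∧ Φ ε δ}
  have hSne : ∀ ε, (S ε).Nonempty := fun ε => ⟨1, by norm_num, hone ε⟩
  have hSbdd : ∀ ε, BddBelow (S ε) := fun ε => ⟨0, fun δ hδ => hδ.1⟩
  refine ⟨fun ε => sInf (S ε) + ε, ?_, ?_⟩
  · rw [Metric.tendsto_nhdsWithin_nhds]
    intro δ hδ
    obtain ⟨ε₀, hε₀, h⟩ := eps_delta d hd (δ / 2) (by linarith)
    refine ⟨min ε₀ (δ / 2), lt_min hε₀ (by linarith), ?_⟩
    intro ε hε hdist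
    have hε' : (0 : ℝ) < ε := hε
    rw [Real.dist_eq, sub_zero, abs_of_pos hε'] at hdist
    have h1 : ε < ε₀ := hdist.trans_le (min_le_left _ _)
    have h2 : ε < δ / 2 := hdist.trans_le (min_le_right _ _)
    have h3 : sInf (S ε) ≤ δ / 2 :=
      csInf_le (hSbdd ε) ⟨by linarith, hmono ε₀ ε _ _ h1.le le_rfl h⟩
    have h4 : 0 ≤ sInf (S ε) := le_csInf (hSne ε) fun δ hδ => hδ.1
    rw [Real.dist_eq, sub_zero, abs_of_nonneg (by linarith)]
    linarith
  · intro ε hε
    obtain ⟨δ, hδ, hlt⟩ := exists_lt_of_csInf_lt (hSne ε)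
      (show sInf (S ε) < sInf (S ε) + ε by linarith)
    exact hmono ε ε δ _ le_rfl hlt.le hδ.2

end Pool.Agent.Results.MP_ff3a4f_co.AlmostKirchberger
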